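import Mathlib
import Pool.Agent.Lib.MP_c82530_nt.AA.Fin
import Pool.Agent.Lib.MP_c82530_nt.AA.PLo
import Pool.Agent.Lib.MP_c82530_nt.AA.PSp
import Pool.Agent.Lib.MP_c82530_nt.AA.PCs
import Pool.Agent.Lib.MP_c82530_nt.AA.PZs

set_option autoImplicit false

namespace Pool.Agent.Lib.MP_c82530_nt.Old.AlmostAllIntegers

open Filter Topology

/-- the set `A` of integers has logarithmic density zero -/
def LogDensityZero (A : Set ℕ) : Prop :=
  Tendsto (fun N : ℕ => (∑ b ∈ Finset.Icc 1 N, A.indicator (fun b : ℕ => (b : ℝ)⁻¹) b) /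
    Real.log N) atTop (𝓝 0)

/-- the numbers `exp (α 1), …, exp (α n), w` are algebraically independent over the algebraic
numbers -/
def AlgIndep {n : ℕ} (α : Fin n → ℂ) (w : ℂ) : Prop :=
  AlgebraicIndependent (integralClosure ℚ ℂ)
    (Sum.elim (fun i : Fin n => Complex.exp (α i)) (fun _ : Fin 1 => w))

/-- **Theorem.** There is one finite dimensional `ℚ`-space `V` of algebraic numbers, stable under
complex conjugation and possibly zero, such that for every `n` and every complex number `c`: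
(1) for all positive integers `b` outside a set of logarithmic density zero,
`exp (α 1), …, exp (α n), c + log b` are algebraically independent over the algebraic numbers
simultaneously for all `ℚ`-linearly independent algebraic numbers `α 1, …, α n` whose `ℚ`-span
meets `V` only in `0`;
(2) for fixed `ℚ`-linearly independent algebraic numbers `α 1, …, α n` such that `V = 0` or `V` is
not contained in their `ℚ`-span, the same holds for all `b` outside a set of logarithmic density
zero;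
(3) if `V ≠ 0` then the sum of the reciprocals of the exceptional `b` in (1), for all `n` together,
converges. -/
theorem result :
    ∃ V : Submodule ℚ ℂ, FiniteDimensional ℚ V ∧ (∀ v ∈ V, IsAlgebraic ℚ v) ∧
      (∀ v ∈ V, (starRingEnd ℂ) v ∈ V) ∧
      (∀ (n : ℕ) (c : ℂ), LogDensityZero {b : ℕ | ∃ α : Fin n → ℂ, (∀ i, IsAlgebraic ℚ (α i)) ∧
        LinearIndependent ℚ α ∧ Disjoint (Submodule.span ℚ (Set.range α)) V ∧
        ¬ AlgIndep α (c + (Real.log b : ℝ))}) ∧
      (∀ (n : ℕ) (c : ℂ) (α : Fin n → ℂ), (∀ i, IsAlgebraic ℚ (α i)) → LinearIndependent ℚ α →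
        (V = ⊥ ∨ ¬ V ≤ Submodule.span ℚ (Set.range α)) →
        LogDensityZero {b : ℕ | ¬ AlgIndep α (c + (Real.log b : ℝ))}) ∧
      (V ≠ ⊥ → ∀ c : ℂ, Summable ({b : ℕ | ∃ (n : ℕ) (α : Fin n → ℂ), (∀ i, IsAlgebraic ℚ (α i)) ∧
        LinearIndependent ℚ α ∧ Disjoint (Submodule.span ℚ (Set.range α)) V ∧
        ¬ AlgIndep α (c + (Real.log b : ℝ))}.indicator (fun b : ℕ => (b : ℝ)⁻¹))) :=
  Pool.Agent.Lib.MP_c82530_nt.AA.main Pool.Agent.Lib.MP_c82530_nt.AA.p_lo
    Pool.Agent.Lib.MP_c82530_nt.AA.p_zs Pool.Agent.Lib.MP_c82530_nt.AA.p_cs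
    Pool.Agent.Lib.MP_c82530_nt.AA.p_sp
    (Pool.Agent.Lib.MP_c82530_nt.AA.p_mt2 Pool.Agent.Lib.MP_c82530_nt.AA.p_sp)
    (fun P hP => Pool.Agent.Lib.MP_c82530_nt.AA.ZP_le_exp P hP)

end Pool.Agent.Lib.MP_c82530_nt.Old.AlmostAllIntegers
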