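import Mathlib
import Pool.Agent.Lib.MP_c82530_nt.AC.Fin
import Pool.Agent.Lib.MP_c82530_nt.AC.Exc
import Pool.Agent.Lib.MP_c82530_nt.AC.P_infral
import Pool.Agent.Lib.MP_c82530_nt.AC.P_snoc
import Pool.Agent.Lib.MP_c82530_nt.AC.P_free
import Pool.Agent.Lib.MP_c82530_nt.AC.P_mon
import Pool.Agent.Lib.MP_c82530_nt.AC.P_exs
import Pool.Agent.Lib.MP_c82530_nt.AC.P_lgb
import Pool.Agent.Lib.MP_c82530_nt.AC.P_fin
import Pool.Agent.Lib.MP_c82530_nt.AC.P_wmo
import Pool.Agent.Lib.MP_c82530_nt.AC.P_aix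
import Pool.Agent.Lib.MP_c82530_nt.AB.P_cpt
import Pool.Agent.Lib.MP_c82530_nt.AB.P_uni
import Pool.Agent.Lib.MP_c82530_nt.AB.P_ind
import Pool.Agent.Lib.MP_c82530_nt.AB.P_pro
import Pool.Agent.Lib.MP_c82530_nt.AB.P_fra
import Pool.Agent.Lib.MP_c82530_nt.AA.PLo
import Pool.Agent.Lib.MP_c82530_nt.AA.PSp
import Pool.Agent.Lib.MP_c82530_nt.AA.PCs
import Pool.Agent.Lib.MP_c82530_nt.AA.PZs

set_option autoImplicit false

namespace Pool.Agent.Lib.MP_c82530_nt.Old.AlmostAllTuples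

open Filter Topology Set

/-- the sum of `1 / (b₁ ⋯ b_r)` over the `r`-tuples `b ∈ D` of integers between `1` and `N` -/
noncomputable def weight {r : ℕ} (D : Set (Fin r → ℕ)) (N : ℕ) : ℝ :=
  ∑ b ∈ Fintype.piFinset (fun _ : Fin r => Finset.Icc 1 N),
    D.indicator (fun b : Fin r → ℕ => ∏ i, ((b i : ℕ) : ℝ)⁻¹) b

/-- a set of `r`-tuples of positive integers has logarithmic density zero -/
def LogDensityZero {r : ℕ} (D : Set (Fin r → ℕ)) : Prop :=
  Tendsto (fun N : ℕ => weight D N / (Real.log N) ^ r) atTop (𝓝 0)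

/-- the exceptional case: the logarithms of the primes in a set `A` such that the sum of `1 / p`
over the other primes `p` converges are algebraic over a finitely generated field -/
def Exceptional : Prop := ∃ (A : Set ℕ) (T : Set ℂ), T.Finite ∧
    Summable ({p : ℕ | p.Prime ∧ p ∉ A}.indicator (fun p : ℕ => (p : ℝ)⁻¹)) ∧
    ∀ p ∈ A, IsAlgebraic (IntermediateField.adjoin ℚ T) ((Real.log (p : ℝ) : ℝ) : ℂ)

/-- the algebraic closure in `ℂ` of the field generated by a set `s` -/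
noncomputable abbrev closureField (s : Set ℂ) : IntermediateField (IntermediateField.adjoin ℚ s) ℂ :=
  algebraicClosure (IntermediateField.adjoin ℚ s) ℂ

/-- **Theorem** (zero-one law). The logarithms are real; `r`-tuples `b` of positive integers are
counted with the weight `1 / (b₁ ⋯ b_r)`; `E` is any finitely generated field of complex numbers.
Outside the exceptional case, for all `n, r` and for all `r`-tuples `b` outside a set of density
zero, `log b₁, …, log b_r` are algebraically independent over `E(exp α₁, …, exp αₙ)` for all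
algebraic `α₁, …, αₙ` simultaneously, and `exp α₁, …, exp αₙ, log b₁, …, log b_r` are algebraically
independent over the algebraic numbers for all `ℚ`-linearly independent algebraic `α₁, …, αₙ`
simultaneously.
In the exceptional case there is an `r` such that a positive proportion of the `r`-tuples `b` has
algebraically dependent `log b₁, …, log b_r`, but for every `0 < ε < 1` there is a finite
dimensional `ℚ`-space `V` of algebraic numbers such that for all `r` a proportion of at least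
`(1 - ε)^r` of the `r`-tuples `b` has the property: `exp α₁, …, exp αₙ` are algebraically
independent over `E(log b₁, …, log b_r)` for all `n` and all `ℚ`-linearly independent algebraic
`α₁, …, αₙ` whose `ℚ`-span meets `V` only in `0`. -/
theorem result :
    (¬ Exceptional → ∀ E : IntermediateField ℚ ℂ, E.FG → ∀ n r : ℕ,
      LogDensityZero {b : Fin r → ℕ | ∃ α : Fin n → ℂ, (∀ i, IsAlgebraic ℚ (α i)) ∧
        ¬ AlgebraicIndependent (closureField ((E : Set ℂ) ∪ range fun i => Complex.exp (α i)))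
          (fun j => ((Real.log (b j : ℝ) : ℝ) : ℂ))}) ∧
    (¬ Exceptional → ∀ n r : ℕ,
      LogDensityZero {b : Fin r → ℕ | ∃ α : Fin n → ℂ, (∀ i, IsAlgebraic ℚ (α i)) ∧
        LinearIndependent ℚ α ∧ ¬ AlgebraicIndependent (integralClosure ℚ ℂ)
          (Sum.elim (fun i => Complex.exp (α i)) (fun j => ((Real.log (b j : ℝ) : ℝ) : ℂ)))}) ∧
    (Exceptional → (∃ (r : ℕ) (δ : ℝ), 0 < δ ∧ ∀ N : ℕ, δ * (Real.log N) ^ r ≤
        weight {b : Fin r → ℕ | ¬ AlgebraicIndependent (integralClosure ℚ ℂ)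
          (fun j => ((Real.log (b j : ℝ) : ℝ) : ℂ))} N) ∧
      ∀ E : IntermediateField ℚ ℂ, E.FG → ∀ ε : ℝ, 0 < ε → ε < 1 →
      ∃ V : Submodule ℚ ℂ, FiniteDimensional ℚ V ∧ (∀ v ∈ V, IsAlgebraic ℚ v) ∧
        ∀ r N : ℕ, (1 - ε) ^ r * (Real.log N) ^ r ≤
          weight {b : Fin r → ℕ | ∀ (n : ℕ) (α : Fin n → ℂ), (∀ i, IsAlgebraic ℚ (α i)) →
            LinearIndependent ℚ α → Disjoint (Submodule.span ℚ (range α)) V →
            AlgebraicIndependent
              (closureField ((E : Set ℂ) ∪ range fun j => ((Real.log (b j : ℝ) : ℝ) : ℂ)))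
              (fun i => Complex.exp (α i))} N) := by
  obtain ⟨h2, h3, h4⟩ := Pool.Agent.Lib.MP_c82530_nt.AC.main3
    Pool.Agent.Lib.MP_c82530_nt.AC.p_inf Pool.Agent.Lib.MP_c82530_nt.AC.p_ral
    Pool.Agent.Lib.MP_c82530_nt.AA.p_lo Pool.Agent.Lib.MP_c82530_nt.AA.p_zs
    Pool.Agent.Lib.MP_c82530_nt.AA.p_cs Pool.Agent.Lib.MP_c82530_nt.AA.p_sp
    (Pool.Agent.Lib.MP_c82530_nt.AA.p_mt2 Pool.Agent.Lib.MP_c82530_nt.AA.p_sp)
    Pool.Agent.Lib.MP_c82530_nt.AB.p_cpt Pool.Agent.Lib.MP_c82530_nt.AC.p_snoc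
    Pool.Agent.Lib.MP_c82530_nt.AC.p_free Pool.Agent.Lib.MP_c82530_nt.AB.p_ind
    Pool.Agent.Lib.MP_c82530_nt.AC.p_mon Pool.Agent.Lib.MP_c82530_nt.AC.p_cong
    Pool.Agent.Lib.MP_c82530_nt.AC.p_exs Pool.Agent.Lib.MP_c82530_nt.AC.p_lgb
    Pool.Agent.Lib.MP_c82530_nt.AC.p_dim Pool.Agent.Lib.MP_c82530_nt.AC.p_fin
    Pool.Agent.Lib.MP_c82530_nt.AC.p_fge Pool.Agent.Lib.MP_c82530_nt.AC.p_wmo
    Pool.Agent.Lib.MP_c82530_nt.AC.p_log Pool.Agent.Lib.MP_c82530_nt.AC.p_aix
    Pool.Agent.Lib.MP_c82530_nt.AB.p_sub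
    Pool.Agent.Lib.MP_c82530_nt.AB.p_pro Pool.Agent.Lib.MP_c82530_nt.AB.p_fra
  have hexc : Pool.Agent.Lib.MP_c82530_nt.AB.EXC ↔ Exceptional :=
    Pool.Agent.Lib.MP_c82530_nt.AC.exc_iff
  rw [hexc] at h2 h3 h4
  exact ⟨h2, h3, h4⟩

end Pool.Agent.Lib.MP_c82530_nt.Old.AlmostAllTuples
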