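import Mathlib
import Pool.Agent.Lib.MP_c82530_nt.Rank

set_option autoImplicit false

namespace Pool.Agent.Lib.MP_c82530_nt.Old.ConjugateReduction

open Pool.Agent.Lib.MP_c82530_nt

/-- **Theorem.** (1) For `ℚ`-linearly independent algebraic `α₁, …, αₙ` there are `ℚ`-linearly
independent `γ₁, …, γₘ`, each real or purely imaginary, in the `ℚ`-span of the `αᵢ`, whose span
contains all real and all purely imaginary numbers of the span of the `αᵢ`, such that for every
complex `z` that is real or purely imaginary or algebraically dependent with its conjugate,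
`exp α₁, …, exp αₙ, z` are algebraically independent over the algebraic numbers if and only if
`exp γ₁, …, exp γₘ, z` are.
(2) Let `α₁, …, αₙ` be algebraic numbers such that the `2n` numbers
`αᵢ, conj αᵢ` are `ℚ`-linearly independent and let `l ≠ 0` be any logarithm of an algebraic number.
Then `exp α₁, …, exp αₙ, l` are algebraically independent over the algebraic numbers, or `l` is
neither real nor purely imaginary and `l, conj l` (two logarithms of algebraic numbers) are
algebraically independent over the algebraic numbers.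
(3) The case `n = 1`: if `α` is an algebraic number which is neither real nor purely imaginary and
`l ≠ 0` is a real or purely imaginary logarithm of an algebraic number, then `exp α` and `l` are
algebraically independent over the algebraic numbers.
(4) For instance `exp (1 + i)` and `π` are algebraically independent over the algebraic numbers. -/
theorem result :
    (∀ (n : ℕ) (α : Fin n → ℂ), (∀ i, IsAlgebraic ℚ (α i)) → LinearIndependent ℚ α →
      ∃ (m : ℕ) (γ : Fin m → ℂ), LinearIndependent ℚ γ ∧
        (∀ j, γ j ∈ Submodule.span ℚ (Set.range α) ∧ ((γ j).im = 0 ∨ (γ j).re = 0)) ∧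
        (∀ w ∈ Submodule.span ℚ (Set.range α), (w.im = 0 ∨ w.re = 0) →
          w ∈ Submodule.span ℚ (Set.range γ)) ∧
        ∀ z : ℂ, (z.im = 0 ∨ z.re = 0 ∨
            ¬ AlgebraicIndependent ℚ ![z, (starRingEnd ℂ) z]) →
          (AlgebraicIndependent (integralClosure ℚ ℂ)
            (Sum.elim (fun i => Complex.exp (α i)) (fun _ : Fin 1 => z)) ↔
          AlgebraicIndependent (integralClosure ℚ ℂ)
            (Sum.elim (fun i => Complex.exp (γ i)) (fun _ : Fin 1 => z)))) ∧
    (∀ (n : ℕ) (α : Fin n → ℂ) (l : ℂ),
      (∀ i, IsAlgebraic ℚ (α i)) →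
      LinearIndependent ℚ (Sum.elim α (fun i => (starRingEnd ℂ) (α i))) →
      l ≠ 0 → IsAlgebraic ℚ (Complex.exp l) →
      AlgebraicIndependent (integralClosure ℚ ℂ)
        (Sum.elim (fun i : Fin n => Complex.exp (α i)) (fun _ : Fin 1 => l)) ∨
      (l.im ≠ 0 ∧ l.re ≠ 0 ∧
        AlgebraicIndependent (integralClosure ℚ ℂ) ![l, (starRingEnd ℂ) l])) ∧
    (∀ (α l : ℂ), IsAlgebraic ℚ α → α.im ≠ 0 → α.re ≠ 0 →
      l ≠ 0 → IsAlgebraic ℚ (Complex.exp l) →
      (l.im = 0 ∨ l.re = 0) →
      AlgebraicIndependent (integralClosure ℚ ℂ) ![Complex.exp α, l]) ∧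
    AlgebraicIndependent (integralClosure ℚ ℂ) ![Complex.exp (1 + Complex.I), (Real.pi : ℂ)] := by
  have hre : ∀ w : ℂ, w.im = 0 ↔ (starRingEnd ℂ) w = w := fun w => Complex.conj_eq_iff_im.symm
  have him : ∀ w : ℂ, w.re = 0 ↔ (starRingEnd ℂ) w = -w := by
    intro w
    constructor
    · intro h
      apply Complex.ext
      · simp [h]
      · simp
    · intro h
      have := congrArg Complex.re h
      simp only [Complex.conj_re, Complex.neg_re] at this
      linarith
  have A : ∀ (n : ℕ) (α : Fin n → ℂ) (l : ℂ),
      (∀ i, IsAlgebraic ℚ (α i)) →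
      LinearIndependent ℚ (Sum.elim α (fun i => (starRingEnd ℂ) (α i))) →
      l ≠ 0 → IsAlgebraic ℚ (Complex.exp l) →
      AlgebraicIndependent (integralClosure ℚ ℂ)
        (Sum.elim (fun i : Fin n => Complex.exp (α i)) (fun _ : Fin 1 => l)) ∨
      (l.im ≠ 0 ∧ l.re ≠ 0 ∧
        AlgebraicIndependent (integralClosure ℚ ℂ) ![l, (starRingEnd ℂ) l]) := by
    intro n α l hα hlin hl0 hl
    by_cases hll : AlgebraicIndependent ℚ ![l, (starRingEnd ℂ) l]
    · right
      refine ⟨fun h => dep_of_real_imag (Or.inl ((hre l).mp h)) hll,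
        fun h => dep_of_real_imag (Or.inr ((him l).mp h)) hll, hll.integralClosure⟩
    left
    apply AlgebraicIndependent.integralClosure
    have h1 : l ∉ AM.closure (Set.range fun i => Complex.exp (α i)) := by
      intro h
      have h1 := conj_cl h
      have hz := mem_cl_conj (log_transcendental hl hl0) (Or.inr (Or.inr hll))
      have h2 := AM.closure_subset_closure (Set.singleton_subset_iff.mpr h1) hz
      rw [Matroid.closure_closure] at h2
      exact log_transcendental hl hl0 (inter_cl α (fun i => (starRingEnd ℂ) (α i)) hα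
        (fun i => isAlgebraic_conj (hα i)) hlin h h2)
    have h2 : AlgebraicIndependent ℚ (fun i => Complex.exp (α i)) := by
      apply lw α hα
      exact hlin.comp Sum.inl Sum.inl_injective
    have h3 := indep_snoc h2 h1
    refine (algebraicIndependent_equiv' (Equiv.sumCongr (Equiv.refl (Fin n))
      (Equiv.ofUnique (Fin 1) Unit)) ?_).mpr h3
    ext (i | i) <;> rfl
  have B : ∀ (α l : ℂ), IsAlgebraic ℚ α → α.im ≠ 0 → α.re ≠ 0 →
      l ≠ 0 → IsAlgebraic ℚ (Complex.exp l) →
      (l.im = 0 ∨ l.re = 0) →
      AlgebraicIndependent (integralClosure ℚ ℂ) ![Complex.exp α, l] := by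
    intro α l hα him hre hl0 hl hc
    have h := (A 1 (fun _ => α) l (fun _ => hα) (linInd_conj (by
      intro h; exact him (Complex.conj_eq_iff_im.mp h)) (by
      intro h
      have := congrArg Complex.re h
      simp only [Complex.conj_re, Complex.neg_re] at this
      exact hre (by linarith))) hl0 hl).resolve_right (fun h => hc.elim h.1 h.2.1)
    refine (algebraicIndependent_equiv' (finSumFinEquiv (m := 1) (n := 1)) ?_).mp h
    ext (i | i) <;> fin_cases i <;> rfl
  refine ⟨?_, A, B, ?_⟩
  · intro n α hα hlin
    obtain ⟨m, γ, h1, h2, h3, h4⟩ := reduction hα hlin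
    refine ⟨m, γ, h1, fun j => ⟨(h2 j).1, ?_⟩, fun w hw h => h3 w hw ?_, fun z hz => h4 z ?_⟩
    · rw [hre, him]; exact (h2 j).2
    · rw [← hre, ← him]; exact h
    · rcases hz with h | h | h
      · exact dep_of_real_imag (Or.inl ((hre z).mp h))
      · exact dep_of_real_imag (Or.inr ((him z).mp h))
      · exact h
  apply AlgebraicIndependent.integralClosure
  have hI : IsAlgebraic ℚ Complex.I := by
    refine ⟨Polynomial.X ^ 2 + 1, ?_, by simp⟩
    exact (Polynomial.monic_X_pow_add_C (1 : ℚ) two_ne_zero).ne_zero
  have hα : IsAlgebraic ℚ (1 + Complex.I) := isAlgebraic_one.add hI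
  have hlin := linInd_conj (α := 1 + Complex.I) (by
      intro h
      have := congrArg Complex.im h
      simp at this
      norm_num at this) (by
      intro h
      have := congrArg Complex.re h
      simp at this
      norm_num at this)
  have hlog : (Real.pi * Complex.I) ∉ AM.closure (Set.range fun _ : Fin 1 =>
      Complex.exp (1 + Complex.I)) := by
    apply log_not_mem (fun _ : Fin 1 => 1 + Complex.I) (fun _ => hα) hlin
    · simp [Real.pi_ne_zero]
    · rw [Complex.exp_pi_mul_I]
      exact isAlgebraic_one.neg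
    · right
      simp
  have hpi : (Real.pi : ℂ) ∉ AM.closure (Set.range fun _ : Fin 1 =>
      Complex.exp (1 + Complex.I)) := by
    intro h
    exact hlog (mul_mem_cl h (alg_mem_cl _ hI))
  have h2 : AlgebraicIndependent ℚ (fun _ : Fin 1 => Complex.exp (1 + Complex.I)) := by
    apply lw (fun _ : Fin 1 => 1 + Complex.I) (fun _ => hα)
    exact hlin.comp Sum.inl Sum.inl_injective
  have h3 := indep_snoc h2 hpi
  refine (algebraicIndependent_equiv' ((Equiv.sumCongr (Equiv.refl (Fin 1))
      (Equiv.ofUnique (Fin 1) Unit)).symm.trans (finSumFinEquiv (m := 1) (n := 1))) ?_).mp h3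
  ext (i | i)
  · fin_cases i; rfl
  · rfl

end Pool.Agent.Lib.MP_c82530_nt.Old.ConjugateReduction
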