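import Mathlib
import Pool.Agent.Lib.MP_c82530_nt.Apply

set_option autoImplicit false

namespace Pool.Agent.Lib.MP_c82530_nt.Old.DisjointSpans

open Pool.Agent.Lib.MP_c82530_nt

/-- **Theorem.** Consider finitely many families `αᵢ = (αᵢ₁, …, αᵢₙᵢ)` of algebraic numbers, each
linearly independent over `ℚ`, whose `ℚ`-spans intersect pairwise trivially.
(1) If `lᵢ ≠ 0` are logarithms of algebraic numbers that are `ℚ`-linearly dependent, then for at
least one `i` the numbers `exp αᵢ₁, …, exp αᵢₙᵢ, lᵢ` are algebraically independent over the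
algebraic numbers.
(2) If there are `d + 1` families and `l₁, …, l_d` are logarithms of algebraic numbers, then for one
of the families (the same one for all `q`) the numbers `exp αᵢ₁, …, exp αᵢₙᵢ, λ` are algebraically
independent over the algebraic numbers for every nonzero `λ = ∑ qⱼ lⱼ` with rational `qⱼ`.
(3) The same for arbitrary complex numbers `z₁, …, z_d` and all transcendental numbers
`b₀ + ∑ bⱼ zⱼ` with algebraic `b₀, bⱼ`. -/
theorem result :
    (∀ (m : ℕ) (n : Fin m → ℕ) (α : ∀ i, Fin (n i) → ℂ) (l : Fin m → ℂ),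
      (∀ i j, IsAlgebraic ℚ (α i j)) → (∀ i, LinearIndependent ℚ (α i)) →
      (∀ i j, i ≠ j → Disjoint (Submodule.span ℚ (Set.range (α i)))
        (Submodule.span ℚ (Set.range (α j)))) →
      (∀ i, l i ≠ 0) → (∀ i, IsAlgebraic ℚ (Complex.exp (l i))) →
      ¬ LinearIndependent ℚ l →
      ∃ i, AlgebraicIndependent (integralClosure ℚ ℂ)
        (Sum.elim (fun j => Complex.exp (α i j)) (fun _ : Fin 1 => l i))) ∧
    (∀ (d : ℕ) (l : Fin d → ℂ) (n : Fin (d + 1) → ℕ) (α : ∀ i, Fin (n i) → ℂ),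
      (∀ i j, IsAlgebraic ℚ (α i j)) → (∀ i, LinearIndependent ℚ (α i)) →
      (∀ i j, i ≠ j → Disjoint (Submodule.span ℚ (Set.range (α i)))
        (Submodule.span ℚ (Set.range (α j)))) →
      (∀ j, IsAlgebraic ℚ (Complex.exp (l j))) →
      ∃ i, ∀ q : Fin d → ℚ, ∑ j, (q j : ℂ) * l j ≠ 0 →
        AlgebraicIndependent (integralClosure ℚ ℂ)
          (Sum.elim (fun j => Complex.exp (α i j)) (fun _ : Fin 1 => ∑ j, (q j : ℂ) * l j))) ∧
    (∀ (d : ℕ) (z : Fin d → ℂ) (n : Fin (d + 1) → ℕ) (α : ∀ i, Fin (n i) → ℂ),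
      (∀ i j, IsAlgebraic ℚ (α i j)) → (∀ i, LinearIndependent ℚ (α i)) →
      (∀ i j, i ≠ j → Disjoint (Submodule.span ℚ (Set.range (α i)))
        (Submodule.span ℚ (Set.range (α j)))) →
      ∃ i, ∀ (b0 : ℂ) (b : Fin d → ℂ), IsAlgebraic ℚ b0 → (∀ j, IsAlgebraic ℚ (b j)) →
        Transcendental ℚ (b0 + ∑ j, b j * z j) →
        AlgebraicIndependent (integralClosure ℚ ℂ)
          (Sum.elim (fun j => Complex.exp (α i j)) (fun _ : Fin 1 => b0 + ∑ j, b j * z j))) := by
  have C : ∀ (d : ℕ) (z : Fin d → ℂ) (n : Fin (d + 1) → ℕ) (α : ∀ i, Fin (n i) → ℂ),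
      (∀ i j, IsAlgebraic ℚ (α i j)) → (∀ i, LinearIndependent ℚ (α i)) →
      (∀ i j, i ≠ j → Disjoint (Submodule.span ℚ (Set.range (α i)))
        (Submodule.span ℚ (Set.range (α j)))) →
      ∃ i, ∀ (b0 : ℂ) (b : Fin d → ℂ), IsAlgebraic ℚ b0 → (∀ j, IsAlgebraic ℚ (b j)) →
        Transcendental ℚ (b0 + ∑ j, b j * z j) →
        AlgebraicIndependent (integralClosure ℚ ℂ)
          (Sum.elim (fun j => Complex.exp (α i j)) (fun _ : Fin 1 => b0 + ∑ j, b j * z j)) := by
    intro d z n α hα hlin hdis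
    obtain ⟨i, hi⟩ := uniform z (fun i => Submodule.span ℚ (Set.range (α i)))
      (fun i => FiniteDimensional.span_of_finite ℚ (Set.finite_range (α i)))
      (fun i => span_alg (hα i)) hdis
    refine ⟨i, fun b0 b hb0 hb htr => ?_⟩
    by_contra hcon
    exact htr (hi b0 b hb0 hb (mem_of_dep (hα i) (hlin i) hcon))
  refine ⟨?_, ?_, C⟩
  · intro m n α l hα hlin hdis hl0 hl hdep
    by_contra hcon
    push Not at hcon
    rw [Fintype.not_linearIndependent_iff] at hdep
    obtain ⟨g, hg, i0, hi0⟩ := hdep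
    have h1 := direct_fin (fun i => Submodule.span ℚ (Set.range (α i)))
      (fun i => FiniteDimensional.span_of_finite ℚ (Set.finite_range (α i)))
      (fun i => span_alg (hα i)) hdis (fun i => (g i : ℂ) * l i)
      (fun i => mul_mem_cl (alg_mem_cl _ (isAlgebraic_algebraMap (g i)))
        (mem_of_dep (hα i) (hlin i) (hcon i))) (by
        have h2 : ∑ i, (g i : ℂ) * l i = 0 := by
          rw [← hg]
          apply Finset.sum_congr rfl
          intro i _
          rw [Algebra.smul_def]; rfl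
        rw [h2]; exact isAlgebraic_zero) i0
    have h3 : (g i0 : ℂ) * l i0 ∈ Llog := by
      have := Llog.smul_mem (g i0) (mem_Llog.mpr (hl i0))
      rwa [Algebra.smul_def] at this
    exact Llog_tr h3 (mul_ne_zero (by exact_mod_cast hi0) (hl0 i0)) h1
  · intro d l n α hα hlin hdis hl
    obtain ⟨i, hi⟩ := C d l n α hα hlin hdis
    refine ⟨i, fun q hq => ?_⟩
    have h3 : ∑ j, (q j : ℂ) * l j ∈ Llog := by
      apply Llog.sum_mem
      intro j _
      have := Llog.smul_mem (q j) (mem_Llog.mpr (hl j))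
      rwa [Algebra.smul_def] at this
    have h4 := hi 0 (fun j => (q j : ℂ)) isAlgebraic_zero
      (fun j => isAlgebraic_algebraMap (q j)) (by
        rw [zero_add]; exact Llog_tr h3 hq)
    rw [zero_add] at h4
    exact h4

end Pool.Agent.Lib.MP_c82530_nt.Old.DisjointSpans
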