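import Mathlib
import Pool.Agent.Lib.MP_c82530_nt.AE.Main
import Pool.Agent.Lib.MP_c82530_nt.AE.P_gr
import Pool.Agent.Lib.MP_c82530_nt.AE.P_adm
import Pool.Agent.Lib.MP_c82530_nt.AE.P_cmk
import Pool.Agent.Lib.MP_c82530_nt.AE.P_rrk
import Pool.Agent.Lib.MP_c82530_nt.AE.P_exk
import Pool.Agent.Lib.MP_c82530_nt.AE.P_grp
import Pool.Agent.Lib.MP_c82530_nt.AD.P_hv
import Pool.Agent.Lib.MP_c82530_nt.AD.P_hs
import Pool.Agent.Lib.MP_c82530_nt.AD.P_hz
import Pool.Agent.Lib.MP_c82530_nt.AD.P_ha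
import Pool.Agent.Lib.MP_c82530_nt.AD.P_proj
import Pool.Agent.Lib.MP_c82530_nt.AD.P_star
import Pool.Agent.Lib.MP_c82530_nt.AD.P_two
import Pool.Agent.Lib.MP_c82530_nt.AD.P_cut
import Pool.Agent.Lib.MP_c82530_nt.AD.P_lim
import Pool.Agent.Lib.MP_c82530_nt.AB.P_fra
import Pool.Agent.Lib.MP_c82530_nt.AA.PLo
import Pool.Agent.Lib.MP_c82530_nt.AA.PSp
import Pool.Agent.Lib.MP_c82530_nt.AA.PZs

set_option autoImplicit false

namespace Pool.Agent.Lib.MP_c82530_nt.Old.OneExceptionalSpace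

open Filter Topology

/-- the set `A` of integers has logarithmic density zero -/
def LogDensityZero (A : Set ℕ) : Prop :=
  Tendsto (fun N : ℕ => (∑ b ∈ Finset.Icc 1 N, A.indicator (fun b : ℕ => (b : ℝ)⁻¹) b) /
    Real.log N) atTop (𝓝 0)

/-- the set `A` of integers has positive lower logarithmic density -/
def PositiveLogDensity (A : Set ℕ) : Prop :=
  ∃ δ : ℝ, 0 < δ ∧ ∀ N : ℕ, δ * Real.log N ≤
    ∑ b ∈ Finset.Icc 1 N, A.indicator (fun b : ℕ => (b : ℝ)⁻¹) b

/-- the numbers `exp (α 1), …, exp (α n), w` are algebraically independent over the algebraic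
numbers -/
def AlgIndep {n : ℕ} (α : Fin n → ℂ) (w : ℂ) : Prop :=
  AlgebraicIndependent (integralClosure ℚ ℂ)
    (Sum.elim (fun i : Fin n => Complex.exp (α i)) (fun _ : Fin 1 => w))

/-- **Theorem.** There is one finite dimensional `ℚ`-space `V` of algebraic numbers, stable under
complex conjugation and possibly zero, with the following properties, in which `C` is any finite
dimensional `ℚ`-space of complex numbers and `log` is the real logarithm.
If `V = 0` then for every `n` and all positive integers `b` outside a set of logarithmic density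
zero, `exp (α 1), …, exp (α n), c + log b` are algebraically independent over the algebraic numbers
simultaneously for all `c ∈ C` and all `ℚ`-linearly independent algebraic numbers `α 1, …, α n`.
If `V ≠ 0` then for all positive integers `b` outside a set of logarithmic density zero
`exp (α 1), …, exp (α n), c + log b` are algebraically independent over the algebraic numbers
simultaneously for all `c ∈ C`, all `n` and all `ℚ`-linearly independent algebraic numbers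
`α 1, …, α n` whose `ℚ`-span does not contain `V`; the `b` for which this fails for some `c ∈ C` and
some `α` whose `ℚ`-span meets `V` only in `0` have a convergent sum of reciprocals; and for some
finite dimensional `C` and all `b` in a set of positive lower logarithmic density there is a
`c ∈ C` such that `exp (α 1), …, exp (α n), c + log b` are algebraically dependent for all `n` and
all `ℚ`-linearly independent algebraic `α 1, …, α n` whose `ℚ`-span contains `V`. -/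
theorem result :
    ∃ V : Submodule ℚ ℂ, FiniteDimensional ℚ V ∧ (∀ v ∈ V, IsAlgebraic ℚ v) ∧
      (∀ v ∈ V, (starRingEnd ℂ) v ∈ V) ∧
      (V = ⊥ → ∀ (n : ℕ) (C : Submodule ℚ ℂ), FiniteDimensional ℚ C →
        LogDensityZero {b : ℕ | ∃ c ∈ C, ∃ α : Fin n → ℂ, (∀ i, IsAlgebraic ℚ (α i)) ∧
          LinearIndependent ℚ α ∧ ¬ AlgIndep α (c + (Real.log b : ℝ))}) ∧
      (V ≠ ⊥ → ∀ C : Submodule ℚ ℂ, FiniteDimensional ℚ C →
        LogDensityZero {b : ℕ | ∃ c ∈ C, ∃ (n : ℕ) (α : Fin n → ℂ),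
          (∀ i, IsAlgebraic ℚ (α i)) ∧ LinearIndependent ℚ α ∧
          ¬ V ≤ Submodule.span ℚ (Set.range α) ∧ ¬ AlgIndep α (c + (Real.log b : ℝ))}) ∧
      (V ≠ ⊥ → ∀ C : Submodule ℚ ℂ, FiniteDimensional ℚ C →
        Summable ({b : ℕ | ∃ c ∈ C, ∃ (n : ℕ) (α : Fin n → ℂ), (∀ i, IsAlgebraic ℚ (α i)) ∧
          LinearIndependent ℚ α ∧ Disjoint (Submodule.span ℚ (Set.range α)) V ∧
          ¬ AlgIndep α (c + (Real.log b : ℝ))}.indicator (fun b : ℕ => (b : ℝ)⁻¹))) ∧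
      (V ≠ ⊥ → ∃ C : Submodule ℚ ℂ, FiniteDimensional ℚ C ∧
        PositiveLogDensity {b : ℕ | ∃ c ∈ C, ∀ (n : ℕ) (α : Fin n → ℂ),
          (∀ i, IsAlgebraic ℚ (α i)) → LinearIndependent ℚ α →
          V ≤ Submodule.span ℚ (Set.range α) → ¬ AlgIndep α (c + (Real.log b : ℝ))}) :=
  Pool.Agent.Lib.MP_c82530_nt.AE.main Pool.Agent.Lib.MP_c82530_nt.AA.p_lo
    Pool.Agent.Lib.MP_c82530_nt.AA.p_zs Pool.Agent.Lib.MP_c82530_nt.AA.p_sp
    (Pool.Agent.Lib.MP_c82530_nt.AA.p_mt2 Pool.Agent.Lib.MP_c82530_nt.AA.p_sp)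
    (fun P hP => Pool.Agent.Lib.MP_c82530_nt.AA.ZP_le_exp P hP)
    Pool.Agent.Lib.MP_c82530_nt.AE.p_cmk
    (Pool.Agent.Lib.MP_c82530_nt.AD.p_two Pool.Agent.Lib.MP_c82530_nt.AA.p_zs
      Pool.Agent.Lib.MP_c82530_nt.AA.p_sp)
    (Pool.Agent.Lib.MP_c82530_nt.AD.p_cut Pool.Agent.Lib.MP_c82530_nt.AA.p_zs)
    Pool.Agent.Lib.MP_c82530_nt.AE.p_rrk Pool.Agent.Lib.MP_c82530_nt.AD.p_lim
    Pool.Agent.Lib.MP_c82530_nt.AE.p_exk Pool.Agent.Lib.MP_c82530_nt.AB.p_fra
    (Pool.Agent.Lib.MP_c82530_nt.AE.p_adm (Pool.Agent.Lib.MP_c82530_nt.AE.p_gr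
      (Pool.Agent.Lib.MP_c82530_nt.AD.p_star
      (Pool.Agent.Lib.MP_c82530_nt.AD.p_proj (Pool.Agent.Lib.MP_c82530_nt.AD.p_ha
        Pool.Agent.Lib.MP_c82530_nt.AD.p_hv Pool.Agent.Lib.MP_c82530_nt.AD.p_hs
        Pool.Agent.Lib.MP_c82530_nt.AD.p_hz)))))
    (Pool.Agent.Lib.MP_c82530_nt.AE.p_grp Pool.Agent.Lib.MP_c82530_nt.AA.p_zs)

end Pool.Agent.Lib.MP_c82530_nt.Old.OneExceptionalSpace
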