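import Mathlib
import Pool.Agent.Lib.MP_c82530_nt.DefectConj

set_option autoImplicit false

namespace Pool.Agent.Results.MP_c82530_nt.SeveralLogarithms

open Pool.Agent.Lib.MP_c82530_nt Set

/-- **Theorem.** Let `l₁, …, l_r` be arbitrary complex numbers (in the problem: logarithms of
algebraic numbers), `t` the transcendence degree of `ℚ(l₁, …, l_r)` and `K` the field of the
numbers algebraic over `ℚ(l₁, …, l_r)`. There are a function `d` on spaces of algebraic numbers and
a finite dimensional `ℚ`-space `V` of algebraic numbers such that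

* `trdeg ℚ(exp α₁, …, exp αₙ, l₁, …, l_r) = n + t - d(span α)` for all `ℚ`-linearly
  independent algebraic `α₁, …, αₙ`, and `d(span α) = 0` if and only if `exp α₁, …, exp αₙ` are
  algebraically independent over `K`; the assertion of the problem holds for `α, l` if and only
  if it holds for the `l` alone and `d(span α) = 0`;
* `d` is monotone, supermodular and at most `t`, `d S = d (S ∩ V)`, `d S ≤ d V`, with equality if
  and only if `V ⊆ S`; so `d(span α) = 0` whenever `span α ∩ V = 0`;
* the algebraic `α` with `exp α ∈ K` form a subspace of `V` of dimension at most `t`;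
* if independent `α₁, …, αₙ` are divided into blocks, then for at most `t` blocks the exponentials
  of the block are algebraically dependent over `K`;
* if `K` contains the conjugates of the `l_j` (for instance if all `l_j` are real or purely
  imaginary), then `V` is stable under complex conjugation, `2 d S ≤ t + d (S ∩ conj S)`, and
  `trdeg ℚ(exp α₁, …, exp αₙ, l₁, …, l_r) ≥ n + t / 2` whenever the `2 n` numbers
  `αᵢ, conj αᵢ` are `ℚ`-linearly independent. -/
theorem result (r : ℕ) (l : Fin r → ℂ) :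
    ∃ (t : ℕ) (d : Submodule ℚ ℂ → ℕ) (V : Submodule ℚ ℂ),
      Algebra.trdeg ℚ (Algebra.adjoin ℚ (range l)) = t ∧
      FiniteDimensional ℚ V ∧ (∀ v ∈ V, IsAlgebraic ℚ v) ∧
      -- the meaning of `d`
      (∀ (n : ℕ) (α : Fin n → ℂ), (∀ i, IsAlgebraic ℚ (α i)) → LinearIndependent ℚ α →
        Algebra.trdeg ℚ
            (Algebra.adjoin ℚ (range (fun i => Complex.exp (α i)) ∪ range l)) +
          (d (Submodule.span ℚ (range α)) : Cardinal) = n + t ∧
        (d (Submodule.span ℚ (range α)) = 0 ↔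
          AlgebraicIndependent (algebraicClosure (IntermediateField.adjoin ℚ (range l)) ℂ)
            (fun i => Complex.exp (α i))) ∧
        (AlgebraicIndependent (integralClosure ℚ ℂ)
            (Sum.elim (fun i => Complex.exp (α i)) l) ↔
          AlgebraicIndependent (integralClosure ℚ ℂ) l ∧
            d (Submodule.span ℚ (range α)) = 0)) ∧
      -- the structure of `d`
      (∀ S : Submodule ℚ ℂ, FiniteDimensional ℚ S → (∀ s ∈ S, IsAlgebraic ℚ s) →
        d S = d (S ⊓ V) ∧ d S ≤ d V ∧ (d S = d V ↔ V ≤ S) ∧ d S ≤ t ∧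
        (S ⊓ V = ⊥ → d S = 0) ∧
        ∀ T : Submodule ℚ ℂ, FiniteDimensional ℚ T → (∀ s ∈ T, IsAlgebraic ℚ s) →
          (T ≤ S → d T ≤ d S) ∧ d S + d T ≤ d (S ⊔ T) + d (S ⊓ T)) ∧
      -- one exponent
      (∃ A : Submodule ℚ ℂ, A ≤ V ∧ Module.finrank ℚ A ≤ t ∧ ∀ α : ℂ, IsAlgebraic ℚ α →
        (Complex.exp α ∈ algebraicClosure (IntermediateField.adjoin ℚ (range l)) ℂ ↔ α ∈ A)) ∧
      -- blocks
      (∀ (n m : ℕ) (α : Fin n → ℂ) (c : Fin n → Fin m), (∀ i, IsAlgebraic ℚ (α i)) →
        LinearIndependent ℚ α →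
        {k : Fin m | ¬ AlgebraicIndependent
          (algebraicClosure (IntermediateField.adjoin ℚ (range l)) ℂ)
            (fun i : {i // c i = k} => Complex.exp (α i))}.ncard ≤ t) ∧
      -- conjugation
      ((∀ j, (starRingEnd ℂ) (l j) ∈
          algebraicClosure (IntermediateField.adjoin ℚ (range l)) ℂ) →
        (∀ v ∈ V, (starRingEnd ℂ) v ∈ V) ∧
        (∀ S T : Submodule ℚ ℂ, FiniteDimensional ℚ S → (∀ s ∈ S, IsAlgebraic ℚ s) →
          (∀ s, s ∈ T ↔ s ∈ S ∧ (starRingEnd ℂ) s ∈ S) → 2 * d S ≤ t + d T) ∧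
        (∀ (n : ℕ) (α : Fin n → ℂ), (∀ i, IsAlgebraic ℚ (α i)) →
          LinearIndependent ℚ (Sum.elim α (fun i => (starRingEnd ℂ) (α i))) →
          (2 * n + t : Cardinal) ≤ 2 * Algebra.trdeg ℚ
            (Algebra.adjoin ℚ (range (fun i => Complex.exp (α i)) ∪ range l)))) := by
  classical
  have hL : (range l).Finite := finite_range l
  obtain ⟨V, hVfd, hV, hcore⟩ := exists_core hL
  refine ⟨(AM.eRk (range l)).toNat, dl (range l), V, trdeg_adjoin (eRk_L_ne_top hL), hVfd, hV,
    fun n α hα hlin => ⟨trdeg_add_dl hL hα hlin, dl_eq_zero_iff hL hα hlin, ?_⟩,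
    fun S hSfd hS => ?_, ?_, ?_, ?_⟩
  · have hinj : Function.Injective (algebraMap ℚ (integralClosure ℚ ℂ)) :=
      (algebraMap ℚ (integralClosure ℚ ℂ)).injective
    rw [dl_eq_zero_iff hL hα hlin, indep_KL_iff rfl,
      ← Algebra.IsIntegral.algebraicIndependent_iff ℚ (integralClosure ℚ ℂ),
      ← Algebra.IsIntegral.algebraicIndependent_iff ℚ (integralClosure ℚ ℂ),
      AlgebraicIndependent.sumElim_iff]
  · obtain ⟨h1, h2, h3⟩ := hcore S hSfd hS
    refine ⟨h1, h2, h3, dl_le hL hS, fun h => ?_, fun T hTfd hT => ⟨fun h => ?_, ?_⟩⟩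
    · rw [h1, h, dl_bot hL]
    · exact dl_mono hL hS h
    · exact dl_super hL hS hT
  · obtain ⟨h1, h2⟩ := AL_le hL hVfd fun W hW1 hW2 => (hcore W hW1 hW2).1
    exact ⟨AL (range l), h1, h2, fun α hα => ⟨fun h => ⟨hα, mem_KL.mp h⟩, fun h => mem_KL.mpr h.2⟩⟩
  · intro n m α c hα hlin
    refine le_trans (le_of_eq ?_) (blocks hL hα hlin c)
    congr 1
    ext k
    rw [mem_setOf_eq, mem_setOf_eq, ne_eq, not_iff_not]
    obtain ⟨N, ⟨e⟩⟩ : ∃ N : ℕ, Nonempty (Fin N ≃ {i // c i = k}) :=
      ⟨_, ⟨(Fintype.equivFin _).symm⟩⟩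
    have h1 := dl_eq_zero_iff hL (α := fun j : Fin N => α (e j)) (fun j => hα _)
      ((hlin.comp _ Subtype.val_injective).comp _ e.injective)
    have h2 : range (fun j : Fin N => α (e j)) = α '' {i | c i = k} := by
      ext z
      constructor
      · rintro ⟨j, rfl⟩
        exact ⟨e j, (e j).2, rfl⟩
      · rintro ⟨i, hi, rfl⟩
        exact ⟨e.symm ⟨i, hi⟩, by simp⟩
    rw [h2] at h1
    rw [h1]
    exact (algebraicIndependent_equiv' e rfl).symm
  · intro hc0
    have hc : ∀ z ∈ range l, cj z ∈ AM.closure (range l) := by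
      rintro _ ⟨j, rfl⟩
      exact mem_KL.mp (hc0 j)
    have hcV : V.map cjL = V := by
      have h1 : FiniteDimensional ℚ (V.map cjL) := inferInstance
      have h2 := (hcore _ h1 (map_alg hV)).2.2.mp (dl_conj hc V)
      refine le_antisymm ?_ h2
      rintro _ ⟨v, hv, rfl⟩
      obtain ⟨w, hw, rfl⟩ := h2 hv
      rw [cjL_cjL]; exact hw
    have htwo : ∀ S T : Submodule ℚ ℂ, FiniteDimensional ℚ S → (∀ s ∈ S, IsAlgebraic ℚ s) →
          (∀ s, s ∈ T ↔ s ∈ S ∧ (starRingEnd ℂ) s ∈ S) →
          2 * dl (range l) S ≤ (AM.eRk (range l)).toNat + dl (range l) T := by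
      intro S T hSfd hS hT
      have h1 : T = S ⊓ S.map cjL := by
        ext s
        rw [hT, Submodule.mem_inf]
        refine and_congr_right fun _ => ⟨fun h => ⟨_, h, ?_⟩, ?_⟩
        · rw [cjL_apply, Complex.conj_conj]
        · rintro ⟨w, hw, rfl⟩
          rw [cjL_apply, Complex.conj_conj]; exact hw
      rw [h1]
      exact two_dl_le hL hc hS
    refine ⟨fun v hv => ?_, htwo, fun n α hα hlin => ?_⟩
    · have h1 : cjL v ∈ V.map cjL := ⟨v, hv, rfl⟩
      rw [hcV] at h1
      exact h1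
    · have hlα : LinearIndependent ℚ α := hlin.comp Sum.inl Sum.inl_injective
      have hfd : FiniteDimensional ℚ (Submodule.span ℚ (range α)) :=
        FiniteDimensional.span_of_finite ℚ (finite_range α)
      have h1 := trdeg_add_dl hL hα hlα
      have h2 : (Submodule.span ℚ (range α)) ⊓ (Submodule.span ℚ (range α)).map cjL = ⊥ := by
        rw [Submodule.map_span, ← range_comp]
        have h3 := (linearIndependent_sum.mp hlin).2.2
        exact h3.eq_bot
      have h3 := two_dl_le hL hc (span_alg hα)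
      rw [h2, dl_bot hL, add_zero] at h3
      obtain ⟨T, hT⟩ : ∃ T : ℕ, Algebra.trdeg ℚ
            (Algebra.adjoin ℚ (range (fun i => Complex.exp (α i)) ∪ range l)) = T :=
        ⟨_, trdeg_adjoin (by rw [eRk_exp_union]; exact fr_ne_top hL (span_alg hα))⟩
      rw [hT] at h1 ⊢
      have h4 : T + dl (range l) (Submodule.span ℚ (range α)) =
          n + (AM.eRk (range l)).toNat := by exact_mod_cast h1
      have h5 : 2 * n + (AM.eRk (range l)).toNat ≤ 2 * T := by omega
      exact_mod_cast h5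

end Pool.Agent.Results.MP_c82530_nt.SeveralLogarithms
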