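import Mathlib
import Pool.Agent.Lib.MP_c82530_nt.Thin

set_option autoImplicit false

namespace Pool.Agent.Lib.MP_c82530_nt.Old.ThinExceptions

open Pool.Agent.Lib.MP_c82530_nt

/-- **Theorem.** (1) For every real `y ≠ 0` there are a real `x₀ > 0` and an algebraic number `a`
which is real or purely imaginary such that for every algebraic `α ∉ ℚ a` and every logarithm `l` of
an algebraic number with `Im l = y` and `|Re l| ≠ x₀`, the numbers `exp α` and `l` are
algebraically independent over the algebraic numbers.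
(2) The same with the roles of the real and the imaginary part of `l` exchanged. -/
theorem result :
    (∀ y : ℝ, y ≠ 0 → ∃ (x₀ : ℝ) (a : ℂ), 0 < x₀ ∧ IsAlgebraic ℚ a ∧ (a.im = 0 ∨ a.re = 0) ∧
      ∀ α l : ℂ, IsAlgebraic ℚ α → (∀ q : ℚ, α ≠ q * a) → IsAlgebraic ℚ (Complex.exp l) →
        l.im = y → |l.re| ≠ x₀ →
        AlgebraicIndependent (integralClosure ℚ ℂ) ![Complex.exp α, l]) ∧
    (∀ x : ℝ, x ≠ 0 → ∃ (y₀ : ℝ) (a : ℂ), 0 < y₀ ∧ IsAlgebraic ℚ a ∧ (a.im = 0 ∨ a.re = 0) ∧
      ∀ α l : ℂ, IsAlgebraic ℚ α → (∀ q : ℚ, α ≠ q * a) → IsAlgebraic ℚ (Complex.exp l) →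
        l.re = x → |l.im| ≠ y₀ →
        AlgebraicIndependent (integralClosure ℚ ℂ) ![Complex.exp α, l]) := by
  constructor
  · intro y hy
    obtain ⟨l₀, a, h0, ha, hax, h⟩ := thin (ε := -1) (Or.inr rfl) (2 * y * Complex.I)
      (by
        have : (y : ℂ) ≠ 0 := by exact_mod_cast hy
        simp [this])
    have hre : l₀.re ≠ 0 := by
      intro hre
      apply h0
      apply Complex.ext
      · simp [hre]
      · simp
    refine ⟨|l₀.re|, a, abs_pos.mpr hre, ha, hax, fun α l hα hq hl hy' hx => ?_⟩
    refine h α l hα ?_ hl ?_ ?_ ?_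
    · intro q hq'
      apply hq q
      rw [hq', Algebra.smul_def]; rfl
    · apply Complex.ext
      · simp
      · simp [hy']; ring
    · rintro rfl
      exact hx rfl
    · intro h1
      apply hx
      have := congrArg Complex.re h1
      simp at this
      rw [this, abs_neg]
  · intro x hx
    obtain ⟨l₀, a, h0, ha, hax, h⟩ := thin (ε := 1) (Or.inl rfl) (2 * x)
      (by
        have : (x : ℂ) ≠ 0 := by exact_mod_cast hx
        simp [this])
    have him : l₀.im ≠ 0 := by
      intro him
      apply h0
      apply Complex.ext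
      · simp
      · simp [him]
    refine ⟨|l₀.im|, a, abs_pos.mpr him, ha, hax, fun α l hα hq hl hx' hy => ?_⟩
    refine h α l hα ?_ hl ?_ ?_ ?_
    · intro q hq'
      apply hq q
      rw [hq', Algebra.smul_def]; rfl
    · apply Complex.ext
      · simp [hx']; ring
      · simp
    · rintro rfl
      exact hy rfl
    · intro h1
      apply hy
      have := congrArg Complex.im h1
      simp at this
      rw [this, abs_neg]

end Pool.Agent.Lib.MP_c82530_nt.Old.ThinExceptions
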